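import Pool.Agent.GEN.StmtsZC

/-!
# Squad GEN, row USO (helper76): the solution property of the universal polynomials
-/

set_option autoImplicit false

namespace Pool.Agent.GEN.H76

open Finset
open Pool.Agent.Helper30_Simp2 (dd)

theorem uso (dcb : DcbStmt) : UsoStmt := by
  classical
  intro σ _ M J P hP R _ y τ Sp hSp Z hZ
  let E : Polynomial ℤ →+* R := Polynomial.eval₂RingHom (Int.castRingHom R) y
  have hE : ∀ p, evI y p = E p := fun p => rfl
  have hEX : E Polynomial.X = y := Polynomial.eval₂_X (Int.castRingHom R) y
  let Φ : Finset (σ →₀ ℕ) → R := fun I =>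
    E (P I none) * τ + ∑ I₁ ∈ M.powerset, E (P I (some I₁)) * Z I₁
  have main : ∀ n : ℕ, ∀ I : Finset (σ →₀ ℕ), I.card = n → I ⊆ M → Sp I → Z I = Φ I := by
    intro n
    induction n using Nat.strong_induction_on with
    | _ n ih =>
      intro I hn hIM hS
      obtain ⟨d1, d2, -, d4, -⟩ := dcb σ I J
      by_cases hR : Red I J
      · obtain ⟨hdis, hKS⟩ := Kc_spec hR
        set D : Finset σ := Kc I J with hD
        have hocc : ∀ j ∈ D, ∃ α ∈ I, α j ≠ 0 := by
          intro j hj
          obtain ⟨α, hα, h1⟩ := hKS.1.2.2 j hj
          exact ⟨α, hα, by omega⟩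
        have hcard : D.card ≤ dd I J := (d1 D D hocc hdis (Finset.Subset.refl D)).2
        have hkD : keep I D D = I := (d2 D D).2
        have hgD : gex I J D D = 0 := by
          unfold gex
          rw [hkD]
          omega
        have hrel := hZ I D hIM hS hdis hKS
        have hDmem : D ∈ D.powerset := Finset.mem_powerset.2 (Finset.Subset.refl D)
        -- the equation of `IsP` evaluated at `y`
        have hPl : ∀ l, ∑ K' ∈ D.powerset, y ^ gex I J D K' * E (P (keep I D K') l) =
            if l = none then y ^ (dd I J - D.card) * (y + 1) ^ (D.card - 1) else 0 := by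
          intro l
          have h1 := congrArg E (hP I hIM l)
          rw [if_pos hR, map_sum] at h1
          have h2 : ∑ K' ∈ D.powerset, y ^ gex I J D K' * E (P (keep I D K') l) =
              ∑ K' ∈ D.powerset, E (Polynomial.X ^ gex I J D K' * P (keep I D K') l) := by
            refine Finset.sum_congr rfl fun K' _ => ?_
            rw [map_mul, map_pow, hEX]
          rw [h2, h1]
          by_cases hl : l = none
          · rw [if_pos hl, if_pos hl, map_mul, map_pow, map_pow, map_add, map_one, hEX]
          · rw [if_neg hl, if_neg hl, map_zero]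
        have hΦ : ∑ K' ∈ D.powerset, y ^ gex I J D K' * Φ (keep I D K') =
            y ^ (dd I J - D.card) * (y + 1) ^ (D.card - 1) * τ := by
          have h1 : ∑ K' ∈ D.powerset, y ^ gex I J D K' * Φ (keep I D K') =
              (∑ K' ∈ D.powerset, y ^ gex I J D K' * E (P (keep I D K') none)) * τ +
              ∑ I₁ ∈ M.powerset,
                (∑ K' ∈ D.powerset, y ^ gex I J D K' * E (P (keep I D K') (some I₁))) * Z I₁ := by
            have h2 : ∀ K' ∈ D.powerset, y ^ gex I J D K' * Φ (keep I D K') =
                y ^ gex I J D K' * E (P (keep I D K') none) * τ +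
                ∑ I₁ ∈ M.powerset, y ^ gex I J D K' * E (P (keep I D K') (some I₁)) * Z I₁ := by
              intro K' _
              show y ^ gex I J D K' * (E (P (keep I D K') none) * τ +
                ∑ I₁ ∈ M.powerset, E (P (keep I D K') (some I₁)) * Z I₁) = _
              rw [mul_add, Finset.mul_sum, mul_assoc]
              congr 1
              refine Finset.sum_congr rfl fun I₁ _ => ?_
              rw [mul_assoc]
            rw [Finset.sum_congr rfl h2, Finset.sum_add_distrib, Finset.sum_mul,
              Finset.sum_comm]
            congr 1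
            refine Finset.sum_congr rfl fun I₁ _ => ?_
            rw [Finset.sum_mul]
          rw [h1, hPl none, if_pos rfl]
          have h3 : ∑ I₁ ∈ M.powerset,
              (∑ K' ∈ D.powerset, y ^ gex I J D K' * E (P (keep I D K') (some I₁))) * Z I₁
                = 0 := by
            refine Finset.sum_eq_zero fun I₁ _ => ?_
            rw [hPl (some I₁), if_neg (by simp), zero_mul]
          rw [h3, add_zero]
        have heq : ∑ K' ∈ D.powerset, y ^ gex I J D K' * Z (keep I D K') =
            ∑ K' ∈ D.powerset, y ^ gex I J D K' * Φ (keep I D K') := by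
          rw [hrel, hΦ]
        rw [← Finset.add_sum_erase _ _ hDmem, ← Finset.add_sum_erase _ _ hDmem, hgD, hkD,
          pow_zero, one_mul, one_mul] at heq
        have hrest : ∑ K' ∈ D.powerset.erase D, y ^ gex I J D K' * Z (keep I D K') =
            ∑ K' ∈ D.powerset.erase D, y ^ gex I J D K' * Φ (keep I D K') := by
          refine Finset.sum_congr rfl fun K' hK' => ?_
          rw [Finset.mem_erase, Finset.mem_powerset] at hK'
          have hlt := d4 D K' hocc hK'.2 hK'.1
          have hsub : keep I D K' ⊆ I := (d2 D K').1
          rw [ih _ (hn ▸ hlt) (keep I D K') rfl (hsub.trans hIM) (hSp I _ hsub hS)]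
        rw [hrest] at heq
        exact add_right_cancel heq
      · have hD : Kc I J = ∅ := Kc_neg hR
        have hk : keep I ∅ ∅ = I := (d2 ∅ ∅).2
        have hg : gex I J ∅ ∅ = 0 := by
          unfold gex
          rw [hk]
          simp
        have hPl : ∀ l, P I l = if l = some I then 1 else 0 := by
          intro l
          have h1 := hP I hIM l
          rw [if_neg hR, hD, Finset.powerset_empty, Finset.sum_singleton, hg, hk, pow_zero,
            one_mul] at h1
          exact h1
        show Z I = E (P I none) * τ + ∑ I₁ ∈ M.powerset, E (P I (some I₁)) * Z I₁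
        rw [hPl none, if_neg (by simp), map_zero, zero_mul, zero_add,
          Finset.sum_eq_single I]
        · rw [hPl (some I), if_pos rfl, map_one, one_mul]
        · intro I₁ _ hne
          rw [hPl (some I₁), if_neg (fun h => hne (Option.some.inj h)), map_zero, zero_mul]
        · intro h
          exact absurd (Finset.mem_powerset.2 hIM) h
  intro I hIM hS
  have h := main I.card I rfl hIM hS
  rw [h]
  rfl

end Pool.Agent.GEN.H76
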